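import Pool.Agent.W2helper77.HexJoint

/-!
Self-avoiding walks on the honeycomb lattice: the set of joint limit points of the exponents of the
number of walks and of the mean-square displacement.
-/

set_option autoImplicit false

namespace Pool.Agent.Results.MP_b440f6_pr.JointExponents

open Filter Topology

/-- Adjacency in the honeycomb lattice (brick-wall model), as in the frozen statement. -/
def Nbr (p q : ℤ × ℤ) : Prop :=
  (p.2 = q.2 ∧ (p.1 - q.1 = 1 ∨ q.1 - p.1 = 1)) ∨
    (p.1 = q.1 ∧ ((q.2 = p.2 + 1 ∧ Even (p.1 + p.2)) ∨ (p.2 = q.2 + 1 ∧ Even (q.1 + q.2))))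

/-- The set of `n`-step self-avoiding walks from the origin. -/
def walks (n : ℕ) : Set (Fin (n + 1) → ℤ × ℤ) :=
  {ω | ω 0 = (0, 0) ∧ Function.Injective ω ∧ ∀ i : Fin n, Nbr (ω i.castSucc) (ω i.succ)}

/-- The number of `n`-step self-avoiding walks from the origin. -/
noncomputable def c (n : ℕ) : ℕ := (walks n).ncard

/-- The connective constant. -/
noncomputable def μ : ℝ := √(2 + √2)

/-- The vertex of the regular honeycomb lattice with edge length `1` in the plane, the origin at `0`,
which has the brick-wall coordinates `p`. -/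
noncomputable def pos (p : ℤ × ℤ) : ℂ :=
  ⟨√3 / 2 * p.1, (3 * p.2 - ((p.1 + p.2) % 2 : ℤ)) / 2⟩

/-- The mean-square displacement of the `n`-step self-avoiding walk. -/
noncomputable def D (n : ℕ) : ℝ :=
  (∑ᶠ ω ∈ walks n, ‖pos (ω (Fin.last n))‖ ^ 2) / (c n : ℝ)

/-- The pair of exponents of length `n`, in the square of the extended real line. -/
noncomputable def pt (n : ℕ) : EReal × EReal :=
  (((Real.log ((c n : ℝ) / μ ^ n) / Real.log n : ℝ) : EReal),
    ((Real.log (D n) / Real.log n : ℝ) : EReal))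

/-- The set of all joint limit points: the limits of `pt` along sequences of lengths. -/
def L : Set (EReal × EReal) :=
  {x | ∃ ψ : ℕ → ℕ, StrictMono ψ ∧ Tendsto (pt ∘ ψ) atTop (𝓝 x)}

/-- **Theorem.** Honeycomb lattice, `c n` the number of `n`-step self-avoiding walks, `D n` their
mean-square displacement, `μ = √(2+√2)`. The set `L` of the limits, along sequences of lengths, of the
pairs `(log (c n / μ ^ n) / log n, log (D n) / log n)` is a compact connected (non-empty) subset of
`[1/75, ∞] × [1, 2]`, and the pairs converge to `x` if and only if `x` belongs to `L` and has a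
neighbourhood which contains only countably many points of `L`. In particular both predictions
`c n = n ^ (11/32 + o(1)) μ ^ n` and `D n = n ^ (3/2 + o(1))` hold as soon as `(11/32, 3/2)` is an
isolated point of `L`, and if one of the two exponents fails to exist then `L` is a continuum no
point of which is isolated. -/
theorem result : (IsCompact L ∧ IsConnected L ∧
      ∀ x ∈ L, ((1 / 75 : ℝ) : EReal) ≤ x.1 ∧ 1 ≤ x.2 ∧ x.2 ≤ 2) ∧
    ∀ x : EReal × EReal, Tendsto pt atTop (𝓝 x) ↔ x ∈ L ∧ ∃ U ∈ 𝓝 x, (L ∩ U).Countable := by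
  obtain ⟨K, M, hu, hv⟩ := Pool.Agent.W2helper77.HexJoint.good
  obtain ⟨-, h2, h3⟩ := Pool.Agent.W2helper77.Joint.connected hu hv
  have hL : L = Pool.Agent.R956.Lim (Pool.Agent.W2helper77.Joint.pt
    Pool.Agent.W2helper77.HexJoint.rr Pool.Agent.Results.MP_b440f6_pr.BothParities.D) := rfl
  refine ⟨⟨h2, h3, ?_⟩, Pool.Agent.W2helper77.Joint.converge_iff hu hv⟩
  rintro x ⟨ψ, hψ, hx⟩
  have t1 : Tendsto (fun n => (((fun m : ℕ => Real.log (Pool.Agent.W2helper77.HexJoint.rr m) /
      Real.log m) (ψ n) : ℝ) : EReal)) atTop (𝓝 x.1) := (continuous_fst.tendsto x).comp hx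
  have t2 : Tendsto (fun n => (((fun m : ℕ => Real.log
      (Pool.Agent.Results.MP_b440f6_pr.BothParities.D m) / Real.log m) (ψ n) : ℝ) : EReal)) atTop
      (𝓝 x.2) := (continuous_snd.tendsto x).comp hx
  have key : ∀ (y : EReal) (a : ℝ) (g : ℕ → ℝ), Tendsto (fun n => ((g (ψ n) : ℝ) : EReal)) atTop
      (𝓝 y) → (∀ ε : ℝ, 0 < ε → ∀ᶠ n : ℕ in atTop, a - ε ≤ g n) → (a : EReal) ≤ y := by
    intro y a g ht h
    by_contra hcon
    rw [not_le] at hcon
    obtain ⟨z, hz1, hz2⟩ := EReal.lt_iff_exists_real_btwn.mp hcon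
    have hz' : z < a := EReal.coe_lt_coe_iff.mp hz2
    have h5 : (z : EReal) ≤ y := by
      refine ge_of_tendsto ht ?_
      filter_upwards [hψ.tendsto_atTop.eventually (h (a - z) (by linarith))] with n hn
      exact EReal.coe_le_coe_iff.mpr (by linarith)
    exact absurd hz1 (not_lt.mpr h5)
  refine ⟨key _ _ _ t1 Pool.Agent.W2helper77.HexJoint.ex_rr, ?_, ?_⟩
  · have := key _ 1 _ t2 Pool.Agent.W2helper77.HexJoint.ex_D_ge
    exact_mod_cast this
  · have h6 : x.2 ≤ ((2 : ℝ) : EReal) := by
      refine le_of_tendsto t2 ?_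
      filter_upwards [hψ.tendsto_atTop.eventually Pool.Agent.W2helper77.HexJoint.ex_D_le] with n hn
      exact EReal.coe_le_coe_iff.mpr hn
    exact_mod_cast h6

end Pool.Agent.Results.MP_b440f6_pr.JointExponents
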