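import Pool.Agent.W2helper77.HexJoint

/-!
Self-avoiding walks on the honeycomb lattice: exact power laws for the products of powers of the
normalised number of walks and of the mean-square displacement.
-/

set_option autoImplicit false

namespace Pool.Agent.Results.MP_b440f6_pr.JointPowerLaws

open Filter Topology

/-- Adjacency in the honeycomb lattice (brick-wall model), as in the frozen statement. -/
def Nbr (p q : ℤ × ℤ) : Prop :=
  (p.2 = q.2 ∧ (p.1 - q.1 = 1 ∨ q.1 - p.1 = 1)) ∨
    (p.1 = q.1 ∧ ((q.2 = p.2 + 1 ∧ Even (p.1 + p.2)) ∨ (p.2 = q.2 + 1 ∧ Even (q.1 + q.2))))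

/-- The set of `n`-step self-avoiding walks from the origin. -/
def walks (n : ℕ) : Set (Fin (n + 1) → ℤ × ℤ) :=
  {ω | ω 0 = (0, 0) ∧ Function.Injective ω ∧ ∀ i : Fin n, Nbr (ω i.castSucc) (ω i.succ)}

/-- The number of `n`-step self-avoiding walks from the origin. -/
noncomputable def c (n : ℕ) : ℕ := (walks n).ncard

/-- The connective constant. -/
noncomputable def μ : ℝ := √(2 + √2)

/-- The vertex of the regular honeycomb lattice with edge length `1` in the plane, the origin at `0`,
which has the brick-wall coordinates `p`. -/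
noncomputable def pos (p : ℤ × ℤ) : ℂ :=
  ⟨√3 / 2 * p.1, (3 * p.2 - ((p.1 + p.2) % 2 : ℤ)) / 2⟩

/-- The mean-square displacement of the `n`-step self-avoiding walk. -/
noncomputable def D (n : ℕ) : ℝ :=
  (∑ᶠ ω ∈ walks n, ‖pos (ω (Fin.last n))‖ ^ 2) / (c n : ℝ)

/-- The product of the `a`-th power of the normalised number of walks `c n / μ ^ n` and of the
`b`-th power of the mean-square displacement. -/
noncomputable def M (a b : ℝ) (n : ℕ) : ℝ := ((c n : ℝ) / μ ^ n) ^ a * D n ^ b

/-- The exponent of `M a b n`, with values in the extended reals. -/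
noncomputable def e (a b : ℝ) (n : ℕ) : EReal := ((Real.log (M a b n) / Real.log n : ℝ) : EReal)

/-- **Theorem.** Honeycomb lattice, `c n` the number of `n`-step self-avoiding walks, `D n` their
mean-square displacement, `μ = √(2+√2)`, and `M a b n = (c n / μ ^ n) ^ a * D n ^ b` for real `a, b`.
There is one constant `K` such that for all `a, b`, every real `s` strictly between the lower and the
upper limit of `log (M a b n) / log n` (in the extended reals), every `B > 0` and each parity `p`,
there are infinitely many `n` of parity `p` with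
`|M a b n / n ^ s - B| ≤ K (1 + |a| + |b| + |s|) B log n / √n`. So either
`log (M a b n) / log n` converges in the extended reals, or the power law `M a b n ~ B n ^ s` holds
along suitable even and along suitable odd lengths for all `s` of an interval and all `B > 0`. -/
theorem result : ∃ K : ℝ, 0 < K ∧ ∀ a b s : ℝ, liminf (e a b) atTop < (s : EReal) →
    (s : EReal) < limsup (e a b) atTop → ∀ B : ℝ, 0 < B → ∀ p : ℕ, p ≤ 1 →
      ∃ᶠ n : ℕ in atTop, n % 2 = p ∧
        |M a b n / (n : ℝ) ^ s - B| ≤ K * (1 + |a| + |b| + |s|) * B * (Real.log n / √n) := by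
  obtain ⟨K, L, hu, hv⟩ := Pool.Agent.W2helper77.HexJoint.good
  obtain ⟨K', hK', h⟩ := Pool.Agent.W2helper77.Joint.monomials hu hv
  refine ⟨K', hK', fun a b s h1 h2 B hB p hp => ?_⟩
  obtain ⟨x, hx1, hx2⟩ := EReal.lt_iff_exists_real_btwn.mp h1
  obtain ⟨y, hy1, hy2⟩ := EReal.lt_iff_exists_real_btwn.mp h2
  have hxs : x < s := EReal.coe_lt_coe_iff.mp hx2
  have hsy : s < y := EReal.coe_lt_coe_iff.mp hy1
  have f1 := frequently_lt_of_liminf_lt (by isBoundedDefault) hx1
  have f2 := frequently_lt_of_lt_limsup (by isBoundedDefault) hy2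
  have hM : ∀ n : ℕ, 2 ≤ n → Real.log (M a b n) / Real.log n =
      a * (Real.log (Pool.Agent.W2helper77.HexJoint.rr n) / Real.log n) +
        b * (Real.log (D n) / Real.log n) := by
    intro n hn
    have p1 := hu.pos n hn
    have p2 := hv.pos n hn
    have e1 : M a b n = Pool.Agent.W2helper77.HexJoint.rr n ^ a *
        Pool.Agent.Results.MP_b440f6_pr.BothParities.D n ^ b := rfl
    rw [e1, Real.log_mul (Real.rpow_pos_of_pos p1 a).ne' (Real.rpow_pos_of_pos p2 b).ne',
      Real.log_rpow p1, Real.log_rpow p2]
    have e2 : D n = Pool.Agent.Results.MP_b440f6_pr.BothParities.D n := rfl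
    rw [e2]
    ring
  refine (h a b s (min (s - x) (y - s)) (lt_min (by linarith) (by linarith)) ?_ ?_ B hB p hp).mono
    fun n hn => hn
  · refine (f1.and_eventually (eventually_ge_atTop 2)).mono ?_
    rintro n ⟨g1, g2⟩
    have g3 : Real.log (M a b n) / Real.log n < x := EReal.coe_lt_coe_iff.mp g1
    rw [hM n g2] at g3
    have := min_le_left (s - x) (y - s)
    have e2 : D n = Pool.Agent.Results.MP_b440f6_pr.BothParities.D n := rfl
    rw [e2] at g3
    linarith
  · refine (f2.and_eventually (eventually_ge_atTop 2)).mono ?_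
    rintro n ⟨g1, g2⟩
    have g3 : y < Real.log (M a b n) / Real.log n := EReal.coe_lt_coe_iff.mp g1
    rw [hM n g2] at g3
    have := min_le_right (s - x) (y - s)
    have e2 : D n = Pool.Agent.Results.MP_b440f6_pr.BothParities.D n := rfl
    rw [e2] at g3
    linarith

end Pool.Agent.Results.MP_b440f6_pr.JointPowerLaws
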